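import Pool.Agent.Helper765.Ent.R4

set_option autoImplicit false

namespace Pool.Agent.Results.MP_7fc85e_an.AllExponents

open MeasureTheory
open scoped ENNReal BigOperators

/-- Normalised Lebesgue measure on the torus `[0,2π)^d`. -/
noncomputable def TP (d : ℕ) : Measure (Fin d → ℝ) :=
  Measure.pi (fun _ : Fin d => ENNReal.ofReal (2 * Real.pi)⁻¹ •
    volume.restrict (Set.Ico 0 (2 * Real.pi)))

/-- Fourier coefficient `(2π)^(-d) ∫ g(x) exp(-i⟨k,x⟩) dx`. -/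
noncomputable def fc {d : ℕ} (g : (Fin d → ℝ) → ℂ) (k : Fin d → ℤ) : ℂ :=
  ∫ x, g x * Complex.exp (-(Complex.I * ((∑ j, (k j : ℝ) * x j : ℝ) : ℂ))) ∂(TP d)

/-- Fourier coefficient at `k` of the kernel `F_r(x) = ∏ (1 + 2 ∑_{m ≥ 1} m^(-r) cos(m x_j - r π/2))`:
the product over the `j` with `k_j ≠ 0` of `|k_j|^(-r) exp(-i sign(k_j) r π/2)`. -/
noncomputable def Fhat {d : ℕ} (r : ℝ) (k : Fin d → ℤ) : ℂ :=
  ∏ j, (if k j = 0 then 1 else (((|(k j : ℝ)|)^(-r) : ℝ) : ℂ) *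
    Complex.exp (-(Complex.I * (((SignType.sign (k j) : ℤ) : ℝ) * r * Real.pi / 2 : ℝ))))

/-- The class `W^r_p` of the functions `f = F_r * φ`, `‖φ‖_p ≤ 1`: the `f` in `L_p` whose Fourier
coefficients are those of `F_r * φ`. -/
def W (d : ℕ) (r : ℝ) (p : ℝ≥0∞) : Set ((Fin d → ℝ) → ℂ) :=
  {f | MemLp f p (TP d) ∧ ∃ φ : (Fin d → ℝ) → ℂ, MemLp φ p (TP d) ∧ eLpNorm φ p (TP d) ≤ 1 ∧
    ∀ k : Fin d → ℤ, fc f k = Fhat r k * fc φ k}

/-- The mixed difference `∏_{j ∈ e} Δ^l_{t_j,j} f`, written out: the sum over `ν ∈ {0,…,l}^e` of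
`∏_{j ∈ e} (-1)^(l-ν_j) (l choose ν_j)` times `f(x + ∑_{j ∈ e} ν_j t_j e_j)`. -/
noncomputable def mdiff {d : ℕ} (l : ℕ) (e : Finset (Fin d)) (t : Fin d → ℝ)
    (f : (Fin d → ℝ) → ℂ) : (Fin d → ℝ) → ℂ := fun x =>
  ∑ ν ∈ Fintype.piFinset (fun j : Fin d => if j ∈ e then Finset.range (l + 1) else {0}),
    (∏ j ∈ e, ((-1 : ℂ)^(l - ν j) * ((l.choose (ν j) : ℕ) : ℂ))) * f (fun j => x j + (ν j : ℝ) * t j)

/-- The class `H^r_p` (functions on `ℝ^d` that are `2π`-periodic in each variable), `l = ⌊r⌋ + 1`. -/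
def H (d : ℕ) (r : ℝ) (p : ℝ≥0∞) : Set ((Fin d → ℝ) → ℂ) :=
  {f | (∀ (x : Fin d → ℝ) (j : Fin d), f (Function.update x j (x j + 2 * Real.pi)) = f x) ∧
    AEStronglyMeasurable f volume ∧ eLpNorm f p (TP d) ≤ 1 ∧
    ∀ e : Finset (Fin d), e.Nonempty → ∀ t : Fin d → ℝ,
      eLpNorm (mdiff (⌊r⌋₊ + 1) e t f) p (TP d) ≤ ENNReal.ofReal (∏ j ∈ e, |t j|^r)}

/-- The entropy number `ε_n(F, L_∞)`: infimum of the `ε > 0` such that `F` is covered by `2^n` balls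
of radius `ε` of `L_∞`. -/
noncomputable def ent {d : ℕ} (n : ℕ) (F : Set ((Fin d → ℝ) → ℂ)) : ℝ≥0∞ :=
  sInf {ε | 0 < ε ∧ ∃ y : Fin (2^n) → ((Fin d → ℝ) → ℂ), (∀ j, MemLp (y j) ⊤ (TP d)) ∧
    ∀ f ∈ F, ∃ j, eLpNorm (fun x => f x - y j x) ⊤ (TP d) ≤ ε}

/-- Orders of the entropy numbers of `W^r_p` and `H^r_p` in `L_∞` for `d ≥ 3`: lower bounds for
`1 ≤ p < ∞`, `r > 0`; both bounds for `2 ≤ p ≤ ∞`, `r > 1/2` (so `p = ∞` is included). -/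
theorem result (d : ℕ) (hd : 3 ≤ d) :
    (∀ p r : ℝ, 1 ≤ p → 0 < r → ∃ c : ℝ, 0 < c ∧ ∀ n : ℕ, 2 ≤ n →
      ENNReal.ofReal (c * (n:ℝ)^(-r) * (Real.log n)^(((d:ℝ) - 1) * r + 1/2))
        ≤ ent n (W d r (ENNReal.ofReal p)) ∧
      ENNReal.ofReal (c * (n:ℝ)^(-r) * (Real.log n)^(((d:ℝ) - 1) * r + (d:ℝ)/2))
        ≤ ent n (H d r (ENNReal.ofReal p))) ∧
    (∀ (p : ℝ≥0∞) (r : ℝ), 2 ≤ p → 1/2 < r → ∃ c C : ℝ, 0 < c ∧ 0 < C ∧ ∀ n : ℕ, 2 ≤ n →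
      (ENNReal.ofReal (c * (n:ℝ)^(-r) * (Real.log n)^(((d:ℝ) - 1) * r + 1/2)) ≤ ent n (W d r p) ∧
        ent n (W d r p) ≤
          ENNReal.ofReal (C * (n:ℝ)^(-r) * (Real.log n)^(((d:ℝ) - 1) * r + 1/2))) ∧
      (ENNReal.ofReal (c * (n:ℝ)^(-r) * (Real.log n)^(((d:ℝ) - 1) * r + (d:ℝ)/2)) ≤ ent n (H d r p) ∧
        ent n (H d r p) ≤
          ENNReal.ofReal (C * (n:ℝ)^(-r) * (Real.log n)^(((d:ℝ) - 1) * r + (d:ℝ)/2)))) := by
  have hlow : ∀ p r : ℝ, 1 ≤ p → 0 < r → ∃ c : ℝ, 0 < c ∧ ∀ n : ℕ, 2 ≤ n →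
      ENNReal.ofReal (c * (n:ℝ)^(-r) * (Real.log n)^(((d:ℝ) - 1) * r + 1/2))
        ≤ ent n (W d r (ENNReal.ofReal p)) ∧
      ENNReal.ofReal (c * (n:ℝ)^(-r) * (Real.log n)^(((d:ℝ) - 1) * r + (d:ℝ)/2))
        ≤ ent n (H d r (ENNReal.ofReal p)) := by
    intro p r hp hr
    obtain ⟨c1, hc1, h1⟩ := HypVol.W_lower d hd p r hp hr
    obtain ⟨c2, hc2, h2⟩ := HypVol.H_lower d hd p r hp hr
    refine ⟨min c1 c2, lt_min hc1 hc2, fun n hn => ⟨?_, ?_⟩⟩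
    · refine le_trans (ENNReal.ofReal_le_ofReal ?_) (h1 n hn)
      have hlog : 0 < Real.log n := Real.log_pos (by exact_mod_cast (by omega : 1 < n))
      gcongr
      exact min_le_left _ _
    · refine le_trans (ENNReal.ofReal_le_ofReal ?_) (h2 n hn)
      have hlog : 0 < Real.log n := Real.log_pos (by exact_mod_cast (by omega : 1 < n))
      gcongr
      exact min_le_right _ _
  have hlow2 : ∀ (p : ℝ≥0∞) (r : ℝ), 2 ≤ p → 1/2 < r → ∃ c : ℝ, 0 < c ∧ ∀ n : ℕ, 2 ≤ n →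
      ENNReal.ofReal (c * (n:ℝ)^(-r) * (Real.log n)^(((d:ℝ) - 1) * r + 1/2)) ≤ ent n (W d r p) ∧
      ENNReal.ofReal (c * (n:ℝ)^(-r) * (Real.log n)^(((d:ℝ) - 1) * r + (d:ℝ)/2)) ≤ ent n (H d r p) := by
    intro p r hp hr
    by_cases hpt : p = ⊤
    · subst hpt
      obtain ⟨c1, hc1, h1⟩ := HypVol.W_lower_inf d hd r hr
      obtain ⟨c2, hc2, h2⟩ := HypVol.H_lower_inf d hd r hr
      refine ⟨min c1 c2, lt_min hc1 hc2, fun n hn => ⟨?_, ?_⟩⟩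
      · refine le_trans (ENNReal.ofReal_le_ofReal ?_) (h1 n hn)
        have hlog : 0 < Real.log n := Real.log_pos (by exact_mod_cast (by omega : 1 < n))
        gcongr
        exact min_le_left _ _
      · refine le_trans (ENNReal.ofReal_le_ofReal ?_) (h2 n hn)
        have hlog : 0 < Real.log n := Real.log_pos (by exact_mod_cast (by omega : 1 < n))
        gcongr
        exact min_le_right _ _
    · have h1 : 1 ≤ p.toReal := by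
        rw [← ENNReal.toReal_one]
        exact (ENNReal.toReal_le_toReal ENNReal.one_ne_top hpt).2 (le_trans (by norm_num) hp)
      have h2 := hlow p.toReal r h1 (by linarith)
      rwa [ENNReal.ofReal_toReal hpt] at h2
  refine ⟨hlow, fun p r hp hr => ?_⟩
  obtain ⟨c, hc, h⟩ := hlow2 p r hp hr
  obtain ⟨c1, hc1, h1⟩ := HypVol.W_upper d (by omega) 2 r le_rfl hr
  obtain ⟨c2, hc2, h2⟩ := HypVol.H_upper d (by omega) 2 r le_rfl hr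
  refine ⟨c, max c1 c2, hc, lt_max_of_lt_left hc1, fun n hn => ⟨⟨(h n hn).1, ?_⟩, (h n hn).2, ?_⟩⟩
  · refine le_trans (HypVol.entLp_mono ⊤ n _ _ (HypVol.WF_mono d r p hp)) ?_
    refine le_trans (h1 n hn) (ENNReal.ofReal_le_ofReal ?_)
    have hlog : 0 < Real.log n := Real.log_pos (by exact_mod_cast (by omega : 1 < n))
    gcongr
    exact le_max_left _ _
  · refine le_trans (HypVol.entLp_mono ⊤ n _ _ (HypVol.HH_mono d r p hp)) ?_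
    refine le_trans (h2 n hn) (ENNReal.ofReal_le_ofReal ?_)
    have hlog : 0 < Real.log n := Real.log_pos (by exact_mod_cast (by omega : 1 < n))
    gcongr
    exact le_max_right _ _

end Pool.Agent.Results.MP_7fc85e_an.AllExponents
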